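import Pool.Agent.R466.Pack

/-!
`B (5 * 7 * 13 ^ 2) = 12822`: kernel computation.
-/

namespace Pool.Agent.R466.CE

open Polynomial Finset

/-- coefficients of `Φ_1` -/
def L1 : List ℤ := [-1, 1]

/-- coefficients of `Φ_5` -/
def L5 : List ℤ := [1, 1, 1, 1, 1]

/-- coefficients of `Φ_7` -/
def L7 : List ℤ := [1, 1, 1, 1, 1, 1, 1]

/-- coefficients of `Φ_13` -/
def L13 : List ℤ := [1, 1, 1, 1, 1, 1, 1, 1, 1, 1, 1, 1, 1]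

/-- coefficients of `Φ_35` -/
def L35 : List ℤ := [1, -1, 0, 0, 0, 1, -1, 1, -1, 0, 1, -1, 1, -1, 1, 0, -1, 1, -1, 1, 0, 0, 0,
  -1, 1]

/-- coefficients of `Φ_65` -/
def L65 : List ℤ := [1, -1, 0, 0, 0, 1, -1, 0, 0, 0, 1, -1, 0, 1, -1, 1, -1, 0, 1, -1, 1, -1, 0,
  1, -1, 1, 0, -1, 1, -1, 1, 0, -1, 1, -1, 1, 0, -1, 1, 0, 0, 0, -1, 1, 0, 0, 0, -1, 1]

/-- coefficients of `Φ_91` -/
def L91 : List ℤ := [1, -1, 0, 0, 0, 0, 0, 1, -1, 0, 0, 0, 0, 1, 0, -1, 0, 0, 0, 0, 1, 0, -1, 0,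
  0, 0, 1, 0, 0, -1, 0, 0, 0, 1, 0, 0, -1, 0, 0, 1, 0, 0, 0, -1, 0, 0, 1, 0, 0, 0, -1, 0, 1, 0, 0,
  0, 0, -1, 0, 1, 0, 0, 0, 0, -1, 1, 0, 0, 0, 0, 0, -1, 1]

/-- coefficients of `Φ_455` -/
def L455 : List ℤ := [1, 1, 1, 1, 1, 0, 0, -1, -1, -1, -1, -1, 0, -1, -1, -1, -1, -1, 0, 0, 1, 1,
  1, 1, 1, 0, 0, 0, 0, 0, 0, 0, 0, 0, 0, 1, 1, 1, 1, 1, 0, 0, -1, -1, -1, -1, -1, 0, -1, -1, -1,
  -1, -1, 0, 0, 1, 1, 1, 1, 1, 0, 0, 0, 0, 0, 1, 1, 1, 1, 1, 1, 1, 0, 0, 0, -1, -1, -1, -2, -2,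
  -2, -2, -1, -1, -1, 0, 0, 0, 1, 1, 1, 2, 2, 2, 2, 1, 0, 0, -1, -1, 0, 0, 0, 1, 0, 0, 0, -1, -1,
  0, -1, 0, 0, -1, -1, -1, -2, -1, -1, -1, 0, 0, 0, 1, 1, 1, 2, 2, 2, 2, 2, 1, 1, 0, 0, 0, 0, -1,
  0, -1, -1, -1, -1, -2, -1, -2, -1, -1, -1, -1, 0, -1, 0, 0, 0, 0, 1, 1, 2, 2, 2, 2, 2, 1, 1, 1,
  0, 0, 0, -1, -1, -1, -2, -1, -1, -1, 0, 0, -1, 0, -1, -1, 0, 0, 0, 1, 0, 0, 0, -1, -1, 0, 0, 1,
  2, 2, 2, 2, 1, 1, 1, 0, 0, 0, -1, -1, -1, -2, -2, -2, -2, -1, -1, -1, 0, 0, 0, 1, 1, 1, 1, 1, 1,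
  1, 0, 0, 0, 0, 0, 1, 1, 1, 1, 1, 0, 0, -1, -1, -1, -1, -1, 0, -1, -1, -1, -1, -1, 0, 0, 1, 1, 1,
  1, 1, 0, 0, 0, 0, 0, 0, 0, 0, 0, 0, 1, 1, 1, 1, 1, 0, 0, -1, -1, -1, -1, -1, 0, -1, -1, -1, -1,
  -1, 0, 0, 1, 1, 1, 1, 1]

theorem cyc1 : cyclotomic 1 ℤ = toPoly L1 := by
  rw [cyclotomic_one]; simp [L1, toPoly]; ring

theorem cyc5 : cyclotomic 5 ℤ = toPoly L5 := by
  have : Fact (Nat.Prime 5) := ⟨by norm_num⟩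
  rw [cyclotomic_prime]; simp [L5, toPoly, Finset.sum_range_succ]; ring

theorem cyc7 : cyclotomic 7 ℤ = toPoly L7 := by
  have : Fact (Nat.Prime 7) := ⟨by norm_num⟩
  rw [cyclotomic_prime]; simp [L7, toPoly, Finset.sum_range_succ]; ring

theorem cyc13 : cyclotomic 13 ℤ = toPoly L13 := by
  have : Fact (Nat.Prime 13) := ⟨by norm_num⟩
  rw [cyclotomic_prime]; simp [L13, toPoly, Finset.sum_range_succ]; ring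

theorem cyc_mul {n r : ℕ} (hr : (r + 1).Prime) (hnd : ¬ (r + 1) ∣ n) {l m : List ℤ}
    (hl : cyclotomic n ℤ = toPoly l) (h : eqz (mulL m l) (expandL r l) = true) :
    cyclotomic (n * (r + 1)) ℤ = toPoly m := by
  have h1 := cyclotomic_expand_eq_cyclotomic_mul hr hnd ℤ
  have h2 := toPoly_eq_of_eqz _ _ h
  rw [toPoly_mulL, toPoly_expandL, ← hl, h1] at h2
  exact (mul_right_cancel₀ (cyclotomic_ne_zero n ℤ) h2).symm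

theorem cyc35 : cyclotomic 35 ℤ = toPoly L35 :=
  cyc_mul (n := 5) (r := 6) (by norm_num) (by norm_num) cyc5 (by decide +kernel)

theorem cyc65 : cyclotomic 65 ℤ = toPoly L65 :=
  cyc_mul (n := 5) (r := 12) (by norm_num) (by norm_num) cyc5 (by decide +kernel)

theorem cyc91 : cyclotomic 91 ℤ = toPoly L91 :=
  cyc_mul (n := 7) (r := 12) (by norm_num) (by norm_num) cyc7 (by decide +kernel)

theorem cyc455 : cyclotomic 455 ℤ = toPoly L455 :=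
  cyc_mul (n := 35) (r := 12) (by norm_num) (by norm_num) cyc35 (by decide +kernel)

end Pool.Agent.R466.CE
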