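import Pool.Agent.R466.HeightB

/-!
For primes `p < q` and `b ≥ 1`: `B (p q^b) = p * max H(G)`, where `G` runs over the products of
distinct `Φ_{q^j}`, `Φ_{p q^j}` with `1 ≤ j ≤ b - 1`.
-/

namespace Pool.Agent.R466

open Polynomial Finset

section Base

variable {q : ℕ} {K : ℤ[X]} {h : ℕ}

theorem HB.expand (hq : 0 < q) (H : HB K h) : HB (expand ℤ q K) h := by
  intro N
  rw [coeff_expand hq]
  split_ifs
  · exact H _
  · simp

theorem coeff_cyclotomic_prime_mul_expand [hq : Fact q.Prime] (K : ℤ[X]) (N : ℕ) :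
    (cyclotomic q ℤ * Polynomial.expand ℤ q K).coeff N = K.coeff (N / q) := by
  have h1 : cyclotomic q ℤ = E q (fun _ => 1) := by
    rw [cyclotomic_prime]; unfold E; simp
  rw [h1, coeff_E_mul_expand hq.out.pos, one_mul]

theorem HB.cyclotomic_prime_mul_expand [hq : Fact q.Prime] (H : HB K h) :
    HB (cyclotomic q ℤ * Polynomial.expand ℤ q K) h := by
  intro N
  rw [coeff_cyclotomic_prime_mul_expand]
  exact H _

end Base

/-- Bezout data. -/
theorem exists_bezout {p q : ℕ} (hp : p.Prime) (hq : q.Prime) (hpq : p < q) :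
    ∃ u t : ℕ, 0 < u ∧ u < q ∧ 0 < t ∧ t < p ∧ p * u + q * t = p * q + 1 := by
  have hcop : Nat.Coprime p q := (Nat.coprime_primes hp hq).mpr hpq.ne
  obtain ⟨m, hm, hm1⟩ := Nat.exists_mul_mod_eq_one_of_coprime hcop hq.one_lt
  have hp2 := hp.two_le
  have hq2 := hq.two_le
  have hdm := Nat.div_add_mod (p * m) q
  rw [hm1] at hdm
  set k := p * m / q with hk
  have hmq : m < q := hm
  have hm0 : 0 < m := by
    rcases Nat.eq_zero_or_pos m with h0 | h0
    · subst h0; simp at hm1
    · exact h0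
  have hkp : k < p := by
    by_contra hcon
    push Not at hcon
    have : q * p ≤ q * k := Nat.mul_le_mul_left q hcon
    have h2 : p * m < p * q := Nat.mul_lt_mul_of_pos_left hmq hp.pos
    nlinarith
  have hk0 : 0 < k := by
    rcases Nat.eq_zero_or_pos k with h0 | h0
    · rw [h0] at hdm
      have : 2 * 1 ≤ p * m := Nat.mul_le_mul hp2 hm0
      omega
    · exact h0
  refine ⟨m, p - k, hm0, hmq, by omega, by omega, ?_⟩
  have : q * (p - k) + q * k = q * p := by
    rw [← Nat.mul_add]; congr 1; omega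
  nlinarith

theorem cyclotomic_pq_mul {p q : ℕ} [hp : Fact p.Prime] [hq : Fact q.Prime] (hpq : p < q) :
    cyclotomic (p * q) ℤ * ((X ^ p - 1) * (X ^ q - 1)) = (X ^ (p * q) - 1) * (X - 1) := by
  have hnd : ¬ q ∣ p := fun h => absurd (Nat.le_of_dvd hp.out.pos h) (by omega)
  have h1 := cyclotomic_expand_eq_cyclotomic_mul hq.out hnd ℤ
  have h2 : (cyclotomic p ℤ) * (X - 1) = X ^ p - 1 := by
    rw [cyclotomic_prime]; exact geom_sum_mul _ _
  have h3 : Polynomial.expand ℤ q (cyclotomic p ℤ) * (X ^ q - 1) = X ^ (p * q) - 1 := by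
    have := congrArg (Polynomial.expand ℤ q) h2
    rw [map_mul, map_sub, map_sub, map_pow, expand_X, map_one, ← pow_mul, mul_comm q p] at this
    exact this
  rw [← h2, ← h3, h1]
  ring

theorem cyclotomic_pq_eq {p q u t : ℕ} [hp : Fact p.Prime] [hq : Fact q.Prime] (hpq : p < q)
    (hu : u < q) (ht : t < p) (hut : p * u + q * t = p * q + 1) :
    cyclotomic (p * q) ℤ =
      (∑ i ∈ range u, X ^ (p * i)) * Polynomial.expand ℤ q (∑ j ∈ range t, X ^ j) -
      (∑ i ∈ range (q - u), X ^ (p * i + 1)) *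
        Polynomial.expand ℤ q (∑ j ∈ range (p - t), X ^ j) := by
  have hne : ((X ^ p - 1) * (X ^ q - 1) : ℤ[X]) ≠ 0 := by
    apply mul_ne_zero
    · exact (monic_X_pow_sub_C (1 : ℤ) hp.out.ne_zero).ne_zero
    · exact (monic_X_pow_sub_C (1 : ℤ) hq.out.ne_zero).ne_zero
  apply mul_right_cancel₀ hne
  rw [cyclotomic_pq_mul hpq]
  have a1 : (∑ i ∈ range u, (X : ℤ[X]) ^ (p * i)) * (X ^ p - 1) = X ^ (p * u) - 1 := by
    have := geom_sum_mul ((X : ℤ[X]) ^ p) u
    rw [← pow_mul] at this
    rw [← this]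
    congr 1
    exact Finset.sum_congr rfl fun i _ => by rw [← pow_mul]
  have a2 : ∀ m : ℕ, Polynomial.expand ℤ q (∑ j ∈ range m, (X : ℤ[X]) ^ j) * (X ^ q - 1) =
      X ^ (q * m) - 1 := by
    intro m
    have := congrArg (Polynomial.expand ℤ q) (geom_sum_mul (X : ℤ[X]) m)
    rw [map_mul, map_sub, map_sub, map_pow, expand_X, map_one, ← pow_mul] at this
    exact this
  have a3 : (∑ i ∈ range (q - u), (X : ℤ[X]) ^ (p * i + 1)) * (X ^ p - 1) =
      X * (X ^ (p * (q - u)) - 1) := by
    have := geom_sum_mul ((X : ℤ[X]) ^ p) (q - u)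
    rw [← pow_mul] at this
    rw [← this, ← mul_assoc, Finset.mul_sum]
    congr 1
    refine Finset.sum_congr rfl fun i _ => ?_
    rw [← pow_mul, pow_succ, mul_comm]
  have e1 : ((∑ i ∈ range u, X ^ (p * i)) * Polynomial.expand ℤ q (∑ j ∈ range t, X ^ j) -
      (∑ i ∈ range (q - u), X ^ (p * i + 1)) *
        Polynomial.expand ℤ q (∑ j ∈ range (p - t), X ^ j)) * ((X ^ p - 1) * (X ^ q - 1)) =
      ((∑ i ∈ range u, (X : ℤ[X]) ^ (p * i)) * (X ^ p - 1)) *
        (Polynomial.expand ℤ q (∑ j ∈ range t, X ^ j) * (X ^ q - 1)) -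
      ((∑ i ∈ range (q - u), (X : ℤ[X]) ^ (p * i + 1)) * (X ^ p - 1)) *
        (Polynomial.expand ℤ q (∑ j ∈ range (p - t), X ^ j) * (X ^ q - 1)) := by ring
  rw [e1, a1, a2, a3, a2]
  obtain ⟨u', hu'⟩ : ∃ u', q = u + u' := ⟨q - u, by omega⟩
  obtain ⟨t', ht'⟩ : ∃ t', p = t + t' := ⟨p - t, by omega⟩
  have hqu : q - u = u' := by omega
  have hpt : p - t = t' := by omega
  rw [hqu, hpt]
  -- exponents
  have b1 : p * u + q * t = p * q + 1 := hut
  have b2 : p * u + p * u' = p * q := by rw [← Nat.mul_add, ← hu']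
  have b3 : q * t + q * t' = p * q := by rw [← Nat.mul_add, ← ht', mul_comm]
  have c1 : (X : ℤ[X]) ^ (p * u) * X ^ (q * t) = X ^ (p * q) * X := by
    rw [← pow_add, b1, pow_succ]
  have c2 : (X : ℤ[X]) * (X ^ (p * u') * X ^ (q * t')) = X ^ (p * q) := by
    rw [← pow_add, ← pow_succ']
    congr 1
    omega
  have c3 : (X : ℤ[X]) * X ^ (p * u') = X ^ (q * t) := by
    rw [← pow_succ']
    congr 1
    omega
  have c4 : (X : ℤ[X]) * X ^ (q * t') = X ^ (p * u) := by
    rw [← pow_succ']
    congr 1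
    omega
  have : (X ^ (p * u) - 1) * (X ^ (q * t) - 1) -
      X * (X ^ (p * u') - 1) * (X ^ (q * t') - 1) =
      (X : ℤ[X]) ^ (p * u) * X ^ (q * t) - X ^ (p * u) - X ^ (q * t) + 1 -
      (X * (X ^ (p * u') * X ^ (q * t')) - X * X ^ (p * u') - X * X ^ (q * t') + X) := by ring
  rw [this, c1, c2, c3, c4]
  ring

/-- Bound for the coefficients of `Φ_{pq}(X) K(X^q)`. -/
theorem coeff_pq_bound {p q u t : ℕ} [hp : Fact p.Prime] [hq : Fact q.Prime] (hpq : p < q)
    (hu : u < q) (ht : t < p) (hut : p * u + q * t = p * q + 1) {K : ℤ[X]} {h : ℕ}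
    (H : HB K h) (N : ℕ) :
    ((cyclotomic (p * q) ℤ * Polynomial.expand ℤ q K).coeff N).natAbs ≤
      if (N * u) % q < u then t * h else (p - t) * h := by
  have hq0 : 0 < q := hq.out.pos
  have hpu : p * u ≡ 1 [MOD q] := by
    have : p * u + q * t ≡ q * p + 1 [MOD q] := by rw [hut, mul_comm p q]
    have h1 : p * u + q * t ≡ p * u [MOD q] := by simp [Nat.ModEq]
    have h2 : q * p + 1 ≡ 1 [MOD q] := by simp [Nat.ModEq]
    exact h1.symm.trans (this.trans h2)
  rw [cyclotomic_pq_eq hpq hu ht hut, sub_mul, mul_assoc, mul_assoc, ← map_mul, ← map_mul,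
    coeff_sub]
  have HT : HB ((∑ j ∈ range t, X ^ j) * K) (t * h) := H.sum_X_pow_mul t (fun j => j)
  have HT' : HB ((∑ j ∈ range (p - t), X ^ j) * K) ((p - t) * h) :=
    H.sum_X_pow_mul (p - t) (fun j => j)
  have hA := coeff_sum_expand hq0 u (fun i => p * i) _ HT N ((N * u) % q) (by
    intro i hi hcong
    have h1 : p * i * u ≡ N * u [MOD q] := hcong.mul_right u
    have h2 : p * i * u = (p * u) * i := by ring
    have h3 : (p * u) * i ≡ 1 * i [MOD q] := hpu.mul_right i
    rw [one_mul] at h3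
    rw [h2] at h1
    have h4 : i ≡ N * u [MOD q] := h3.symm.trans h1
    have h5 : i % q = (N * u) % q := h4
    rw [← h5, Nat.mod_eq_of_lt (by omega)])
  have hB := coeff_sum_expand hq0 (q - u) (fun i => p * i + 1) _ HT' N
    (if u ≤ (N * u) % q then (N * u) % q - u else q) (by
    intro i hi hcong
    have h1 : (p * i + 1) * u ≡ N * u [MOD q] := hcong.mul_right u
    have h2 : (p * i + 1) * u = (p * u) * i + u := by ring
    have h3 : (p * u) * i + u ≡ 1 * i + u [MOD q] := (hpu.mul_right i).add_right u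
    rw [one_mul] at h3
    rw [h2] at h1
    have h4 : i + u ≡ N * u [MOD q] := h3.symm.trans h1
    have h5 : (i + u) % q = (N * u) % q := h4
    rw [Nat.mod_eq_of_lt (by omega)] at h5
    rw [← h5, if_pos (by omega)]
    omega)
  by_cases hc : (N * u) % q < u
  · rw [if_pos hc] at hA
    rw [if_neg (by omega : ¬ u ≤ (N * u) % q), if_neg (by omega)] at hB
    rw [if_pos hc]
    simp only [nonpos_iff_eq_zero, Int.natAbs_eq_zero] at hB
    rw [hB, sub_zero]
    exact hA
  · rw [if_neg hc] at hA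
    have hlt : (N * u) % q < q := Nat.mod_lt _ hq0
    rw [if_pos (by omega : u ≤ (N * u) % q), if_pos (by omega)] at hB
    rw [if_neg hc]
    simp only [nonpos_iff_eq_zero, Int.natAbs_eq_zero] at hA
    rw [hA, zero_sub, Int.natAbs_neg]
    exact hB

theorem HB.cyclotomic_pq {p q : ℕ} [hp : Fact p.Prime] [hq : Fact q.Prime] (hpq : p < q)
    {K : ℤ[X]} {h : ℕ} (H : HB K h) :
    HB (cyclotomic (p * q) ℤ * Polynomial.expand ℤ q K) (p * h) := by
  obtain ⟨u, t, -, hu, -, ht, hut⟩ := exists_bezout hp.out hq.out hpq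
  intro N
  refine (coeff_pq_bound hpq hu ht hut H N).trans ?_
  split_ifs
  · exact Nat.mul_le_mul_right h ht.le
  · exact Nat.mul_le_mul_right h (Nat.sub_le _ _)

theorem HB.sub_one_mul_cyclotomic_pq {p q : ℕ} [hp : Fact p.Prime] [hq : Fact q.Prime]
    (hpq : p < q) {K : ℤ[X]} {h : ℕ} (H : HB K h) :
    HB ((X - 1) * (cyclotomic (p * q) ℤ * Polynomial.expand ℤ q K)) (p * h) := by
  obtain ⟨u, t, hu0, hu, ht0, ht, hut⟩ := exists_bezout hp.out hq.out hpq
  have hp2 := hp.out.two_le
  have hq2 := hq.out.two_le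
  have key := coeff_pq_bound hpq hu ht hut H
  have hall := HB.cyclotomic_pq hpq H
  set F := cyclotomic (p * q) ℤ * Polynomial.expand ℤ q K with hF
  intro N
  rw [sub_mul, one_mul, coeff_sub]
  rcases N with _ | N
  · rw [coeff_X_mul_zero, zero_sub, Int.natAbs_neg]
    exact hall 0
  · rw [coeff_X_mul]
    refine (Int.natAbs_sub_le _ _).trans ?_
    have h1 := key N
    have h2 := key (N + 1)
    have hstep : ((N + 1) * u) % q = ((N * u) % q + u) % q := by
      rw [add_mul, one_mul, Nat.add_mod, Nat.mod_eq_of_lt hu]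
    rw [hstep] at h2
    set i := (N * u) % q with hi
    have hiq : i < q := Nat.mod_lt _ (by omega)
    have hpt : (p - t) * h + t * h = p * h := by
      rw [← Nat.add_mul]; congr 1; omega
    by_cases c1 : i < u <;> by_cases c2 : (i + u) % q < u
    · rw [if_pos c1] at h1
      rw [if_pos c2] at h2
      -- wrap around
      have hw : q ≤ i + u := by
        by_contra hcon
        push Not at hcon
        rw [Nat.mod_eq_of_lt hcon] at c2
        omega
      have hqu : q + 1 ≤ 2 * u := by omega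
      have ht2 : 2 * t ≤ p := by
        by_contra hcon
        push Not at hcon
        have e1 : p * (q + 1) ≤ p * (2 * u) := Nat.mul_le_mul_left p hqu
        have e2 : q * (p + 1) ≤ q * (2 * t) := Nat.mul_le_mul_left q hcon
        nlinarith
      calc _ ≤ t * h + t * h := Nat.add_le_add h1 h2
        _ = (2 * t) * h := by ring
        _ ≤ p * h := Nat.mul_le_mul_right h ht2
    · rw [if_pos c1] at h1
      rw [if_neg c2] at h2
      omega
    · rw [if_neg c1] at h1
      rw [if_pos c2] at h2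
      omega
    · rw [if_neg c1] at h1
      rw [if_neg c2] at h2
      have hw : i + u < q := by
        by_contra hcon
        push Not at hcon
        have : (i + u) % q = i + u - q := by
          rw [Nat.mod_eq_sub_mod hcon, Nat.mod_eq_of_lt (by omega)]
        omega
      have hqu : 2 * u + 1 ≤ q := by omega
      have ht2 : 2 * (p - t) ≤ p := by
        by_contra hcon
        push Not at hcon
        have hcon' : 2 * t + 1 ≤ p := by omega
        have e1 : p * (2 * u + 1) ≤ p * q := Nat.mul_le_mul_left p hqu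
        have e2 : q * (2 * t + 1) ≤ q * p := Nat.mul_le_mul_left q hcon'
        nlinarith
      calc _ ≤ (p - t) * h + (p - t) * h := Nat.add_le_add h1 h2
        _ = (2 * (p - t)) * h := by ring
        _ ≤ p * h := Nat.mul_le_mul_right h ht2

/-- The base factor: a product of some of `Φ_1, Φ_q, Φ_p, Φ_{pq}`. -/
noncomputable def base (p q : ℕ) (a c d e : Prop) [Decidable a] [Decidable c] [Decidable d]
    [Decidable e] : ℤ[X] :=
  (if a then X - 1 else 1) * ((if c then cyclotomic q ℤ else 1) *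
    ((if d then cyclotomic p ℤ else 1) * (if e then cyclotomic (p * q) ℤ else 1)))

theorem HB.base {p q : ℕ} [hp : Fact p.Prime] [hq : Fact q.Prime]
    (hpq : p < q) {K : ℤ[X]} {h : ℕ} (H : HB K h) (a c d e : Prop) [Decidable a] [Decidable c]
    [Decidable d] [Decidable e] :
    HB (base p q a c d e * Polynomial.expand ℤ q K) (p * h) := by
  have hp2 := hp.out.two_le
  have hq2 := hq.out.two_le
  have hq0 : 0 < q := by omega
  have hp0 : 0 < p := by omega
  have m1 : h ≤ p * h := Nat.le_mul_of_pos_left h hp0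
  have m2 : 2 * h ≤ p * h := Nat.mul_le_mul_right h hp2
  have cp : cyclotomic p ℤ = ∑ i ∈ range p, X ^ i := cyclotomic_prime ℤ p
  have cq : cyclotomic q ℤ = ∑ i ∈ range q, X ^ i := cyclotomic_prime ℤ q
  have g1 : ∀ m, (X - 1 : ℤ[X]) * (∑ i ∈ range m, X ^ i) = X ^ m - 1 := by
    intro m; rw [mul_comm]; exact geom_sum_mul _ _
  have hndq : ¬ q ∣ p := fun h => absurd (Nat.le_of_dvd hp.out.pos h) (by omega)
  have hndp : ¬ p ∣ q := fun h => by
    have := (Nat.prime_dvd_prime_iff_eq hp.out hq.out).mp h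
    omega
  have ex1 : cyclotomic p ℤ * cyclotomic (p * q) ℤ = Polynomial.expand ℤ q (cyclotomic p ℤ) := by
    rw [cyclotomic_expand_eq_cyclotomic_mul hq.out hndq ℤ, mul_comm]
  have ex2 : cyclotomic q ℤ * cyclotomic (p * q) ℤ = ∑ i ∈ range q, X ^ (p * i) := by
    have := cyclotomic_expand_eq_cyclotomic_mul hp.out hndp ℤ
    rw [mul_comm q p, mul_comm] at this
    rw [← this, cq, map_sum]
    exact Finset.sum_congr rfl fun i _ => by rw [map_pow, expand_X, ← pow_mul]
  have HY : HB (Polynomial.expand ℤ q K) h := H.expand hq0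
  have HpK : HB (cyclotomic p ℤ * K) (p * h) := by
    rw [cp]; exact H.sum_X_pow_mul p (fun i => i)
  have HqY : HB (cyclotomic q ℤ * Polynomial.expand ℤ q K) h := H.cyclotomic_prime_mul_expand
  have Hqp : HB ((∑ i ∈ range q, X ^ (p * i)) * Polynomial.expand ℤ q K) h := by
    obtain ⟨u, t, -, hu, -, ht, hut⟩ := exists_bezout hp.out hq.out hpq
    have hpu : p * u ≡ 1 [MOD q] := by
      have : p * u + q * t ≡ q * p + 1 [MOD q] := by rw [hut, mul_comm p q]
      have h1 : p * u + q * t ≡ p * u [MOD q] := by simp [Nat.ModEq]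
      have h2 : q * p + 1 ≡ 1 [MOD q] := by simp [Nat.ModEq]
      exact h1.symm.trans (this.trans h2)
    intro N
    have := coeff_sum_expand hq0 q (fun i => p * i) _ H N ((N * u) % q) (by
      intro i hi hcong
      have h1 : p * i * u ≡ N * u [MOD q] := hcong.mul_right u
      have h2 : p * i * u = (p * u) * i := by ring
      have h3 : (p * u) * i ≡ 1 * i [MOD q] := hpu.mul_right i
      rw [one_mul] at h3
      rw [h2] at h1
      have h4 : i ≡ N * u [MOD q] := h3.symm.trans h1
      have h5 : i % q = (N * u) % q := h4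
      rw [← h5, Nat.mod_eq_of_lt hi])
    rw [if_pos (Nat.mod_lt _ hq0)] at this
    exact this
  unfold R466.base
  by_cases ha : a <;> by_cases hc : c <;> by_cases hd : d <;> by_cases he : e <;>
    simp only [ha, hc, hd, he, if_true, if_false, one_mul, mul_one]
  · -- all four
    have : ((X - 1) * (cyclotomic q ℤ * (cyclotomic p ℤ * cyclotomic (p * q) ℤ)) : ℤ[X]) *
        Polynomial.expand ℤ q K = Polynomial.expand ℤ q ((X ^ p - 1) * K) := by
      rw [ex1, ← mul_assoc (X - 1), cq, g1, map_mul, ← g1 p, ← cp, map_mul, map_sub, expand_X,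
        map_one]
    rw [this]
    exact ((H.X_pow_sub_one_mul p).expand hq0).mono m2
  · have : ((X - 1) * (cyclotomic q ℤ * cyclotomic p ℤ) : ℤ[X]) * Polynomial.expand ℤ q K =
        (X ^ p - 1) * (cyclotomic q ℤ * Polynomial.expand ℤ q K) := by
      rw [← g1 p, ← cp]; ring
    rw [this]
    exact (HqY.X_pow_sub_one_mul p).mono m2
  · have : ((X - 1) * (cyclotomic q ℤ * cyclotomic (p * q) ℤ) : ℤ[X]) *
        Polynomial.expand ℤ q K =
        (X - 1) * ((∑ i ∈ range q, X ^ (p * i)) * Polynomial.expand ℤ q K) := by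
      rw [ex2]; ring
    rw [this]
    exact Hqp.sub_one_mul.mono m2
  · have : ((X - 1) * cyclotomic q ℤ : ℤ[X]) * Polynomial.expand ℤ q K =
        (X ^ q - 1) * Polynomial.expand ℤ q K := by
      rw [← g1 q, ← cq]
    rw [this]
    exact (HY.X_pow_sub_one_mul q).mono m2
  · have : ((X - 1) * (cyclotomic p ℤ * cyclotomic (p * q) ℤ) : ℤ[X]) *
        Polynomial.expand ℤ q K = (X - 1) * Polynomial.expand ℤ q (cyclotomic p ℤ * K) := by
      rw [ex1, map_mul]; ring
    rw [this]
    exact HpK.sub_one_mul_expand hq2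
  · have : ((X - 1) * cyclotomic p ℤ : ℤ[X]) * Polynomial.expand ℤ q K =
        (X ^ p - 1) * Polynomial.expand ℤ q K := by
      rw [← g1 p, ← cp]
    rw [this]
    exact (HY.X_pow_sub_one_mul p).mono m2
  · rw [mul_assoc]
    exact H.sub_one_mul_cyclotomic_pq hpq
  · exact (H.sub_one_mul_expand hq2).mono m1
  · have : (cyclotomic q ℤ * (cyclotomic p ℤ * cyclotomic (p * q) ℤ) : ℤ[X]) *
        Polynomial.expand ℤ q K =
        cyclotomic q ℤ * Polynomial.expand ℤ q (cyclotomic p ℤ * K) := by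
      rw [ex1, map_mul]; ring
    rw [this]
    exact HpK.cyclotomic_prime_mul_expand
  · have : (cyclotomic q ℤ * cyclotomic p ℤ : ℤ[X]) * Polynomial.expand ℤ q K =
        (∑ i ∈ range p, X ^ i) * (cyclotomic q ℤ * Polynomial.expand ℤ q K) := by
      rw [← cp]; ring
    rw [this]
    exact HqY.sum_X_pow_mul p (fun i => i)
  · rw [ex2]
    exact Hqp.mono m1
  · exact HqY.mono m1
  · have : (cyclotomic p ℤ * cyclotomic (p * q) ℤ : ℤ[X]) * Polynomial.expand ℤ q K =
        Polynomial.expand ℤ q (cyclotomic p ℤ * K) := by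
      rw [ex1, map_mul]
    rw [this]
    exact HpK.expand hq0
  · rw [cp]
    exact HY.sum_X_pow_mul p (fun i => i)
  · exact H.cyclotomic_pq hpq
  · exact HY.mono m1

/-- `H(Φ_p(X) Φ_q(X) K(X^q)) = p H(K)`. -/
theorem height_pq_mul_expand {p q : ℕ} [hp : Fact p.Prime] [hq : Fact q.Prime]
    (hpq : p < q) (K : ℤ[X]) :
    height (cyclotomic p ℤ * (cyclotomic q ℤ * Polynomial.expand ℤ q K)) = p * height K := by
  have cp : cyclotomic p ℤ = ∑ i ∈ range p, X ^ i := cyclotomic_prime ℤ p
  have hq0 := hq.out.pos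
  have hp0 := hp.out.pos
  apply le_antisymm
  · rw [cp]
    exact ((HB_height K).cyclotomic_prime_mul_expand.sum_X_pow_mul p (fun i => i)).height_le
  · -- lower bound
    by_cases hK : K = 0
    · subst hK; simp [height]
    obtain ⟨n, hn, hn2⟩ := Finset.exists_mem_eq_sup K.support
      (by rwa [Polynomial.support_nonempty]) (fun k => (K.coeff k).natAbs)
    have hKn : height K = (K.coeff n).natAbs := hn2
    have hc : (cyclotomic p ℤ * (cyclotomic q ℤ * Polynomial.expand ℤ q K)).coeff
        (q * n + (q - 1)) = p * K.coeff n := by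
      rw [cp, Finset.sum_mul, finsetSum_coeff]
      have : ∀ i ∈ range p, (X ^ i * (cyclotomic q ℤ * Polynomial.expand ℤ q K)).coeff
          (q * n + (q - 1)) = K.coeff n := by
        intro i hi
        have hip : i < p := Finset.mem_range.mp hi
        rw [coeff_X_pow_mul', if_pos (by omega), coeff_cyclotomic_prime_mul_expand]
        congr 1
        have : q * n + (q - 1) - i = (q - 1 - i) + q * n := by omega
        rw [this, Nat.add_mul_div_left _ _ hq0, Nat.div_eq_of_lt (by omega), zero_add]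
      rw [Finset.sum_congr rfl this]
      simp
    have h2 := natAbs_coeff_le_height
      (cyclotomic p ℤ * (cyclotomic q ℤ * Polynomial.expand ℤ q K)) (q * n + (q - 1))
    rw [hc, Int.natAbs_mul, Int.natAbs_natCast] at h2
    rw [hKn]
    exact h2

/-- The upper part of a divisor of `X ^ (p q ^ (b + 1)) - 1`. -/
noncomputable def upper (p q b : ℕ) (t : Finset ℕ) : ℤ[X] :=
  ∏ i ∈ range b, ((if q ^ (i + 2) ∈ t then cyclotomic (q ^ (i + 1)) ℤ else 1) *
    (if p * q ^ (i + 2) ∈ t then cyclotomic (p * q ^ (i + 1)) ℤ else 1))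

theorem prod_eq_base_mul_upper {p q : ℕ} [hp : Fact p.Prime] [hq : Fact q.Prime]
    (hpq : p < q) (b : ℕ) {t : Finset ℕ} (ht : t ⊆ (p * q ^ (b + 1)).divisors) :
    (∏ d ∈ t, cyclotomic d ℤ) =
      base p q (1 ∈ t) (q ∈ t) (p ∈ t) (p * q ∈ t) *
        Polynomial.expand ℤ q (upper p q b t) := by
  rw [prod_cyclotomic_subset hp.out hq.out hpq.ne (b + 1) ht, ← Finset.prod_mul_distrib,
    Finset.prod_range_succ', Finset.prod_range_succ']
  unfold upper base
  rw [map_prod]
  have : ∀ k ∈ range b, ((if q ^ (k + 1 + 1) ∈ t then cyclotomic (q ^ (k + 1 + 1)) ℤ else 1) *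
      (if p * q ^ (k + 1 + 1) ∈ t then cyclotomic (p * q ^ (k + 1 + 1)) ℤ else 1)) =
      Polynomial.expand ℤ q ((if q ^ (k + 2) ∈ t then cyclotomic (q ^ (k + 1)) ℤ else 1) *
    (if p * q ^ (k + 2) ∈ t then cyclotomic (p * q ^ (k + 1)) ℤ else 1)) := by
    intro k _
    rw [map_mul]
    congr 1
    · split_ifs
      · rw [cyclotomic_expand_eq_cyclotomic hq.out (dvd_pow_self q (Nat.succ_ne_zero k)),
          ← pow_succ]
      · simp
    · split_ifs
      · rw [cyclotomic_expand_eq_cyclotomic hq.out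
          (Dvd.dvd.mul_left (dvd_pow_self q (Nat.succ_ne_zero k)) p), mul_assoc, ← pow_succ]
      · simp
  rw [Finset.prod_congr rfl this]
  simp only [pow_zero, mul_one, zero_add, pow_one, cyclotomic_one]
  ring

/-- `Φ_p Φ_q upper(X^q)` is again a divisor. -/
theorem pq_mul_upper_dvd {p q : ℕ} [hp : Fact p.Prime] [hq : Fact q.Prime]
    (hpq : p < q) (b : ℕ) {t : Finset ℕ} (ht : t ⊆ (p * q ^ (b + 1)).divisors) :
    (cyclotomic p ℤ * (cyclotomic q ℤ * Polynomial.expand ℤ q (upper p q b t))) ∣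
      X ^ (p * q ^ (b + 1)) - 1 := by
  have hn : 0 < p * q ^ (b + 1) := by
    have := hp.out.pos; have := hq.out.pos; positivity
  have hp2 := hp.out.two_le
  have hq2 := hq.out.two_le
  set t' : Finset ℕ := (((t.erase 1).erase (p * q)) ∪ {p, q}) with ht'def
  have ht' : t' ⊆ (p * q ^ (b + 1)).divisors := by
    intro d hd
    rw [ht'def, Finset.mem_union] at hd
    rcases hd with hd | hd
    · exact ht (Finset.mem_of_mem_erase (Finset.mem_of_mem_erase hd))
    · rw [Nat.mem_divisors]
      refine ⟨?_, hn.ne'⟩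
      simp only [Finset.mem_insert, Finset.mem_singleton] at hd
      rcases hd with rfl | rfl
      · exact dvd_mul_right _ _
      · exact Dvd.dvd.mul_left (dvd_pow_self d (Nat.succ_ne_zero b)) p
  have hprod := prod_eq_base_mul_upper hpq b ht'
  have hpq1 : p * q ≠ 1 := by nlinarith
  have hpqp : p * q ≠ p := by nlinarith
  have hpqq : p * q ≠ q := by nlinarith
  have h1 : 1 ∉ t' := by
    simp [ht'def]; omega
  have h2 : q ∈ t' := by simp [ht'def]
  have h3 : p ∈ t' := by simp [ht'def]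
  have h4 : p * q ∉ t' := by
    simp [ht'def, hp.out.ne_zero, hq.out.ne_zero]
    omega
  have hup : upper p q b t' = upper p q b t := by
    unfold upper
    refine Finset.prod_congr rfl fun i _ => ?_
    have hqi : q < q ^ (i + 2) := by
      calc q = q ^ 1 := (pow_one q).symm
        _ < q ^ (i + 2) := Nat.pow_lt_pow_right hq.out.one_lt (by omega)
    have e1 : q ^ (i + 2) ∈ t' ↔ q ^ (i + 2) ∈ t := by
      have a1 : q ^ (i + 2) ≠ 1 := by omega
      have a2 : q ^ (i + 2) ≠ p * q := by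
        intro h
        rw [pow_succ] at h
        have := Nat.eq_of_mul_eq_mul_right hq.out.pos h
        have h5 : p ∣ q ^ (i + 1) := by rw [this]
        exact hpq.ne ((Nat.prime_dvd_prime_iff_eq hp.out hq.out).mp (hp.out.dvd_of_dvd_pow h5))
      have a3 : q ^ (i + 2) ≠ p := by omega
      have a4 : q ^ (i + 2) ≠ q := by omega
      rw [ht'def, Finset.mem_union, Finset.mem_erase, Finset.mem_erase]
      simp only [Finset.mem_insert, Finset.mem_singleton]
      tauto
    have e2 : p * q ^ (i + 2) ∈ t' ↔ p * q ^ (i + 2) ∈ t := by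
      have hb : p * q < p * q ^ (i + 2) := Nat.mul_lt_mul_of_pos_left hqi hp.out.pos
      have a1 : p * q ^ (i + 2) ≠ 1 := by nlinarith
      have a2 : p * q ^ (i + 2) ≠ p * q := hb.ne'
      have a3 : p * q ^ (i + 2) ≠ p := by nlinarith
      have a4 : p * q ^ (i + 2) ≠ q := by nlinarith
      rw [ht'def, Finset.mem_union, Finset.mem_erase, Finset.mem_erase]
      simp only [Finset.mem_insert, Finset.mem_singleton]
      tauto
    simp only [e1, e2]
  rw [hup] at hprod
  have : base p q (1 ∈ t') (q ∈ t') (p ∈ t') (p * q ∈ t') = cyclotomic p ℤ * cyclotomic q ℤ := by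
    unfold base
    rw [if_neg h1, if_pos h2, if_pos h3, if_neg h4]
    ring
  rw [this, mul_assoc] at hprod
  rw [← hprod]
  exact prod_cyclotomic_dvd hn ht'

/-- For primes `p < q` and `b ≥ 1`, `B (p q^b)` is `p` times the height of some polynomial. -/
theorem B_eq {p q : ℕ} [hp : Fact p.Prime] [hq : Fact q.Prime] (hpq : p < q) (b : ℕ) :
    ∃ t ⊆ (p * q ^ (b + 1)).divisors, B (p * q ^ (b + 1)) = p * height (upper p q b t) := by
  have hn : 0 < p * q ^ (b + 1) := by
    have := hp.out.pos; have := hq.out.pos; positivity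
  obtain ⟨f, hf, hfB⟩ := exists_eq_B hn
  obtain ⟨t, ht, heq⟩ := exists_height_eq_of_dvd hn hf
  refine ⟨t, ht, le_antisymm ?_ ?_⟩
  · rw [← hfB, heq, prod_eq_base_mul_upper hpq b ht]
    exact ((HB_height _).base hpq _ _ _ _).height_le
  · rw [← height_pq_mul_expand hpq]
    exact le_B hn (pq_mul_upper_dvd hpq b ht)

end Pool.Agent.R466
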