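import Mathlib

/-!
Heights of integer polynomials and divisors of `X ^ n - 1`.
-/

namespace Pool.Agent.R466

open Polynomial Finset

/-- The height of an integer polynomial: the largest absolute value of a coefficient
(and `0` for the zero polynomial). -/
def height (f : ℤ[X]) : ℕ := f.support.sup fun k => (f.coeff k).natAbs

theorem natAbs_coeff_le_height (f : ℤ[X]) (k : ℕ) : (f.coeff k).natAbs ≤ height f := by
  by_cases h : k ∈ f.support
  · exact Finset.le_sup (f := fun k => (f.coeff k).natAbs) h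
  · simp [notMem_support_iff.mp h]

theorem height_le_iff (f : ℤ[X]) (m : ℕ) :
    height f ≤ m ↔ ∀ k, (f.coeff k).natAbs ≤ m := by
  constructor
  · intro h k
    exact (natAbs_coeff_le_height f k).trans h
  · intro h
    exact Finset.sup_le fun k _ => h k

theorem height_neg (f : ℤ[X]) : height (-f) = height f := by
  simp [height]

/-- A divisor of a product of primes is associated to a subproduct. -/
theorem exists_subset_associated_prod {ι R : Type*} [DecidableEq ι] [CommRing R] [IsDomain R]
    (s : Finset ι) (p : ι → R) (hp : ∀ i ∈ s, Prime (p i)) (f : R) (hf : f ∣ ∏ i ∈ s, p i) :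
    ∃ t ⊆ s, Associated f (∏ i ∈ t, p i) := by
  induction s using Finset.induction_on generalizing f with
  | empty =>
    refine ⟨∅, Finset.Subset.refl _, ?_⟩
    simp only [Finset.prod_empty] at hf ⊢
    exact associated_one_iff_isUnit.mpr (isUnit_of_dvd_one hf)
  | insert a s ha ih =>
    rw [Finset.prod_insert ha] at hf
    have hpa : Prime (p a) := hp a (Finset.mem_insert_self a s)
    have hps : ∀ i ∈ s, Prime (p i) := fun i hi => hp i (Finset.mem_insert_of_mem hi)
    by_cases h : p a ∣ f
    · obtain ⟨g, rfl⟩ := h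
      have hg : g ∣ ∏ i ∈ s, p i := (mul_dvd_mul_iff_left hpa.ne_zero).mp hf
      obtain ⟨t, hts, hat⟩ := ih hps g hg
      refine ⟨insert a t, Finset.insert_subset_insert a hts, ?_⟩
      have hat' : a ∉ t := fun h' => ha (hts h')
      rw [Finset.prod_insert hat']
      exact hat.mul_left _
    · obtain ⟨k, hk⟩ := hf
      have h1 : p a ∣ f * k := ⟨_, hk.symm⟩
      rcases hpa.dvd_or_dvd h1 with h2 | h2
      · exact absurd h2 h
      · obtain ⟨k', rfl⟩ := h2
        have h3 : ∏ i ∈ s, p i = f * k' := by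
          apply mul_left_cancel₀ hpa.ne_zero
          rw [hk]; ring
        obtain ⟨t, hts, hat⟩ := ih hps f ⟨k', h3⟩
        exact ⟨t, hts.trans (Finset.subset_insert a s), hat⟩

theorem height_eq_of_associated {f g : ℤ[X]} (h : Associated f g) : height f = height g := by
  obtain ⟨u, hu⟩ := h
  obtain ⟨r, hr, hru⟩ := Polynomial.isUnit_iff.mp u.isUnit
  rcases Int.isUnit_iff.mp hr with rfl | rfl
  · rw [← hu, ← hru]; simp
  · rw [← hu, ← hru]
    have : f * C (-1) = -f := by simp
    rw [this, height_neg]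

/-- Every divisor of `X ^ n - 1` over `ℤ` has the height of a product of distinct cyclotomic
polynomials `Φ_d`, `d ∣ n`. -/
theorem exists_height_eq_of_dvd {n : ℕ} (hn : 0 < n) {f : ℤ[X]} (hf : f ∣ X ^ n - 1) :
    ∃ t ⊆ n.divisors, height f = height (∏ d ∈ t, cyclotomic d ℤ) := by
  rw [← prod_cyclotomic_eq_X_pow_sub_one hn] at hf
  obtain ⟨t, ht, hat⟩ := exists_subset_associated_prod n.divisors (fun d => cyclotomic d ℤ)
    (fun d hd => (cyclotomic.irreducible (Nat.pos_of_mem_divisors hd)).prime) f hf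
  exact ⟨t, ht, height_eq_of_associated hat⟩

theorem prod_cyclotomic_dvd {n : ℕ} (hn : 0 < n) {t : Finset ℕ} (ht : t ⊆ n.divisors) :
    (∏ d ∈ t, cyclotomic d ℤ) ∣ X ^ n - 1 := by
  rw [← prod_cyclotomic_eq_X_pow_sub_one hn]
  exact Finset.prod_dvd_prod_of_subset _ _ _ ht

theorem divisors_prime_mul_prime_pow {p q : ℕ} (hp : p.Prime) (hq : q.Prime) (b : ℕ) :
    (p * q ^ b).divisors =
      (range (b + 1)).image (fun i => q ^ i) ∪ (range (b + 1)).image (fun i => p * q ^ i) := by
  ext d
  simp only [Nat.mem_divisors, Finset.mem_union, Finset.mem_image, Finset.mem_range]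
  constructor
  · rintro ⟨hd, -⟩
    obtain ⟨k1, k2, h1, h2, rfl⟩ := (Nat.dvd_mul).mp hd
    obtain ⟨i, hi, rfl⟩ := (Nat.dvd_prime_pow hq).mp h2
    rcases (Nat.dvd_prime hp).mp h1 with rfl | rfl
    · left; exact ⟨i, by omega, by simp⟩
    · right; exact ⟨i, by omega, rfl⟩
  · have h0 : p * q ^ b ≠ 0 := by
      have := hp.pos; have := hq.pos; positivity
    rintro (⟨i, hi, rfl⟩ | ⟨i, hi, rfl⟩)
    · exact ⟨Dvd.dvd.mul_left (pow_dvd_pow q (by omega)) p, h0⟩
    · exact ⟨Nat.mul_dvd_mul_left p (pow_dvd_pow q (by omega)), h0⟩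

/-- Rewriting a subproduct of `∏_{d ∣ p q^b} Φ_d` as a product over the two families
`q^i` and `p q^i`. -/
theorem prod_cyclotomic_subset {p q : ℕ} (hp : p.Prime) (hq : q.Prime) (hpq : p ≠ q) (b : ℕ)
    {t : Finset ℕ} (ht : t ⊆ (p * q ^ b).divisors) :
    (∏ d ∈ t, cyclotomic d ℤ) =
      (∏ i ∈ range (b + 1), if q ^ i ∈ t then cyclotomic (q ^ i) ℤ else 1) *
      (∏ i ∈ range (b + 1), if p * q ^ i ∈ t then cyclotomic (p * q ^ i) ℤ else 1) := by
  have h1 : (∏ d ∈ t, cyclotomic d ℤ) =
      ∏ d ∈ (p * q ^ b).divisors, if d ∈ t then cyclotomic d ℤ else 1 := by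
    rw [Finset.prod_ite_mem, Finset.inter_eq_right.mpr ht]
  have hdisj : Disjoint ((range (b + 1)).image (fun i => q ^ i))
      ((range (b + 1)).image (fun i => p * q ^ i)) := by
    rw [Finset.disjoint_left]
    intro d h1 h2
    simp only [Finset.mem_image, Finset.mem_range] at h1 h2
    obtain ⟨i, -, rfl⟩ := h1
    obtain ⟨j, -, h⟩ := h2
    have : p ∣ q ^ i := by rw [← h]; exact dvd_mul_right _ _
    have := (Nat.prime_dvd_prime_iff_eq hp hq).mp (hp.dvd_of_dvd_pow this)
    exact hpq this
  have hinj1 : Set.InjOn (fun i => q ^ i) (range (b + 1) : Set ℕ) := by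
    intro i _ j _ h
    exact Nat.pow_right_injective hq.two_le h
  have hinj2 : Set.InjOn (fun i => p * q ^ i) (range (b + 1) : Set ℕ) := by
    intro i _ j _ h
    exact Nat.pow_right_injective hq.two_le (Nat.eq_of_mul_eq_mul_left hp.pos h)
  rw [h1, divisors_prime_mul_prime_pow hp hq b, Finset.prod_union hdisj,
    Finset.prod_image hinj1, Finset.prod_image hinj2]

/-- The polynomial `∑_{r < q} c_r X^r`. -/
noncomputable def E (q : ℕ) (c : ℕ → ℤ) : ℤ[X] := ∑ r ∈ range q, C (c r) * X ^ r

theorem coeff_E_mul_expand {q : ℕ} (hq : 0 < q) (c : ℕ → ℤ) (G : ℤ[X]) (N : ℕ) :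
    (E q c * expand ℤ q G).coeff N = c (N % q) * G.coeff (N / q) := by
  unfold E
  rw [Finset.sum_mul, finsetSum_coeff]
  have key : ∀ r ∈ range q, (C (c r) * X ^ r * expand ℤ q G).coeff N =
      if r = N % q then c (N % q) * G.coeff (N / q) else 0 := by
    intro r hr
    rw [mul_assoc, coeff_C_mul, coeff_X_pow_mul']
    have hrq : r < q := Finset.mem_range.mp hr
    by_cases h : r = N % q
    · subst h
      rw [if_pos (Nat.mod_le N q), if_pos rfl, coeff_expand hq,
        if_pos (Nat.dvd_sub_mod N)]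
      congr 2
      have : N - N % q = q * (N / q) := by
        have := Nat.mod_add_div N q
        omega
      rw [this, Nat.mul_div_cancel_left _ hq]
    · rw [if_neg h]
      by_cases h2 : r ≤ N
      · rw [if_pos h2, coeff_expand hq, if_neg, mul_zero]
        intro h3
        apply h
        obtain ⟨k, hk⟩ := h3
        have : N = q * k + r := by omega
        rw [this, Nat.mul_add_mod, Nat.mod_eq_of_lt hrq]
      · rw [if_neg h2, mul_zero]
  rw [Finset.sum_congr rfl key, Finset.sum_ite_eq' (range q) (N % q), if_pos]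
  exact Finset.mem_range.mpr (Nat.mod_lt _ hq)

end Pool.Agent.R466
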