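import Pool.Agent.R466.Height

/-!
The maximal height `B n` of a divisor of `X ^ n - 1` and products `E(X) G(X ^ q)`.
-/

namespace Pool.Agent.R466

open Polynomial Finset

/-- `B n` is the maximal height of a divisor of `X ^ n - 1` in `ℤ[X]`. -/
noncomputable def B (n : ℕ) : ℕ := sSup {h : ℕ | ∃ f : ℤ[X], f ∣ X ^ n - 1 ∧ height f = h}

theorem heights_bddAbove {n : ℕ} (hn : 0 < n) :
    BddAbove {h : ℕ | ∃ f : ℤ[X], f ∣ X ^ n - 1 ∧ height f = h} := by
  refine ⟨n.divisors.powerset.sup fun t => height (∏ d ∈ t, cyclotomic d ℤ), ?_⟩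
  rintro h ⟨f, hf, rfl⟩
  obtain ⟨t, ht, heq⟩ := exists_height_eq_of_dvd hn hf
  rw [heq]
  exact Finset.le_sup (f := fun t => height (∏ d ∈ t, cyclotomic d ℤ))
    (Finset.mem_powerset.mpr ht)

theorem le_B {n : ℕ} (hn : 0 < n) {f : ℤ[X]} (hf : f ∣ X ^ n - 1) : height f ≤ B n :=
  le_csSup (heights_bddAbove hn) ⟨f, hf, rfl⟩

theorem exists_eq_B {n : ℕ} (hn : 0 < n) : ∃ f : ℤ[X], f ∣ X ^ n - 1 ∧ height f = B n := by
  have hne : {h : ℕ | ∃ f : ℤ[X], f ∣ X ^ n - 1 ∧ height f = h}.Nonempty :=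
    ⟨height 1, 1, one_dvd _, rfl⟩
  exact Nat.sSup_mem hne (heights_bddAbove hn)

theorem isGreatest_B {n : ℕ} (hn : 0 < n) :
    IsGreatest {h : ℕ | ∃ f : ℤ[X], f ∣ X ^ n - 1 ∧ height f = h} (B n) :=
  ⟨exists_eq_B hn, fun h hh => by obtain ⟨f, hf, rfl⟩ := hh; exact le_B hn hf⟩

/-- `f` has height at most `h`. -/
def HB (f : ℤ[X]) (h : ℕ) : Prop := ∀ k, (f.coeff k).natAbs ≤ h

theorem HB_height (f : ℤ[X]) : HB f (height f) := natAbs_coeff_le_height f

theorem HB.height_le {f : ℤ[X]} {h : ℕ} (H : HB f h) : height f ≤ h := (height_le_iff f h).mpr H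

theorem HB.mono {f : ℤ[X]} {h h' : ℕ} (H : HB f h) (hh : h ≤ h') : HB f h' :=
  fun k => (H k).trans hh

/-- multiplying by a sum of `m` monomials multiplies the height by at most `m`. -/
theorem HB.sum_X_pow_mul {f : ℤ[X]} {h : ℕ} (H : HB f h) (m : ℕ) (a : ℕ → ℕ) :
    HB ((∑ j ∈ range m, X ^ (a j)) * f) (m * h) := by
  intro k
  rw [Finset.sum_mul, finsetSum_coeff]
  calc (∑ j ∈ range m, (X ^ (a j) * f).coeff k).natAbs
      ≤ ∑ j ∈ range m, ((X ^ (a j) * f).coeff k).natAbs := Int.natAbs_sum_le _ _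
    _ ≤ ∑ _j ∈ range m, h := by
        apply Finset.sum_le_sum
        intro j _
        rw [coeff_X_pow_mul']
        split_ifs
        · exact H _
        · simp
    _ = m * h := by simp

/-- Coefficients of `(∑_{i<m} X^{a i}) K(X^q)` when the `a i` are pairwise incongruent mod `q`. -/
theorem coeff_sum_expand {q : ℕ} (hq : 0 < q) (m : ℕ) (a : ℕ → ℕ) (K : ℤ[X]) {h : ℕ}
    (H : HB K h) (N i0 : ℕ) (hi : ∀ i < m, a i ≡ N [MOD q] → i = i0) :
    (((∑ i ∈ range m, X ^ (a i)) * expand ℤ q K).coeff N).natAbs ≤ if i0 < m then h else 0 := by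
  rw [Finset.sum_mul, finsetSum_coeff]
  have hz : ∀ i ∈ range m, i ≠ i0 → (X ^ (a i) * expand ℤ q K).coeff N = 0 := by
    intro i him hne
    rw [coeff_X_pow_mul']
    split_ifs with h1
    · rw [coeff_expand hq, if_neg]
      intro hd
      apply hne
      apply hi i (Finset.mem_range.mp him)
      exact (Nat.modEq_iff_dvd' h1).mpr hd
    · rfl
  by_cases h0 : i0 < m
  · rw [if_pos h0, Finset.sum_eq_single_of_mem i0 (Finset.mem_range.mpr h0) hz,
      coeff_X_pow_mul']
    split_ifs with h1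
    · rw [coeff_expand hq]
      split_ifs
      · exact H _
      · simp
    · simp
  · rw [if_neg h0, Finset.sum_eq_zero]
    · simp
    · intro i him
      apply hz i him
      intro h2
      rw [h2] at him
      exact h0 (Finset.mem_range.mp him)

theorem HB.sub_one_mul {f : ℤ[X]} {h : ℕ} (H : HB f h) : HB ((X - 1) * f) (2 * h) := by
  intro k
  rw [sub_mul, one_mul, coeff_sub]
  rcases k with _ | k
  · have := H 0
    simp only [coeff_X_mul_zero]
    omega
  · rw [coeff_X_mul]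
    have h1 := H k
    have h2 := H (k + 1)
    omega

theorem HB.X_pow_sub_one_mul {f : ℤ[X]} {h : ℕ} (H : HB f h) (m : ℕ) :
    HB ((X ^ m - 1) * f) (2 * h) := by
  intro k
  rw [sub_mul, one_mul, coeff_sub, coeff_X_pow_mul']
  have h2 := H k
  split_ifs
  · have h1 := H (k - m)
    omega
  · omega

/-- `(X - 1) K(X^q)` has the same height bound as `K` (for `q ≥ 2`). -/
theorem HB.sub_one_mul_expand {q : ℕ} (hq : 2 ≤ q) {K : ℤ[X]} {h : ℕ} (H : HB K h) :
    HB ((X - 1) * expand ℤ q K) h := by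
  intro N
  have hq0 : 0 < q := by omega
  rw [sub_mul, one_mul, coeff_sub]
  rcases N with _ | N
  · simp only [coeff_X_mul_zero, coeff_expand hq0]
    split_ifs
    · have := H (0 / q); simpa using this
    · simp
  · rw [coeff_X_mul, coeff_expand hq0, coeff_expand hq0]
    split_ifs with h1 h2 h2
    · exfalso
      have : q ∣ 1 := (Nat.dvd_add_right h1).mp h2
      have := Nat.le_of_dvd one_pos this
      omega
    · simpa using H _
    · simpa using H _
    · simp

end Pool.Agent.R466
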