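import Pool.Agent.R466.HeightB

/-!
Kernel-friendly computations with integer polynomials: coefficient lists and Kronecker packing.
-/

namespace Pool.Agent.R466

open Polynomial Finset

/-! ### Coefficient lists -/

/-- The polynomial with a given list of coefficients. -/
noncomputable def toPoly : List ℤ → ℤ[X]
  | [] => 0
  | a :: l => C a + X * toPoly l

/-- sum of coefficient lists -/
def addL : List ℤ → List ℤ → List ℤ
  | [], m => m
  | a :: l, [] => a :: l
  | a :: l, b :: m => (a + b) :: addL l m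

/-- product of coefficient lists -/
def mulL : List ℤ → List ℤ → List ℤ
  | [], _ => []
  | a :: l, m => addL (m.map (fun x => a * x)) (0 :: mulL l m)

/-- `l¹` norm -/
def l1 : List ℤ → ℕ
  | [] => 0
  | a :: l => a.natAbs + l1 l

/-- evaluation -/
def evalL (x : ℤ) : List ℤ → ℤ
  | [] => 0
  | a :: l => a + x * evalL x l

/-- `k` zeros in front -/
def zeros : ℕ → List ℤ → List ℤ
  | 0, l => l
  | k + 1, l => 0 :: zeros k l

/-- substitute `X ^ (r+1)` -/
def expandL (r : ℕ) : List ℤ → List ℤ
  | [] => []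
  | a :: l => a :: zeros r (expandL r l)

/-- all entries are zero -/
def allz : List ℤ → Bool
  | [] => true
  | a :: l => (a == 0) && allz l

/-- equality up to trailing zeros -/
def eqz : List ℤ → List ℤ → Bool
  | [], m => allz m
  | a :: l, [] => (a == 0) && allz l
  | a :: l, b :: m => (a == b) && eqz l m

theorem toPoly_addL (l m : List ℤ) : toPoly (addL l m) = toPoly l + toPoly m := by
  induction l generalizing m with
  | nil => simp [addL, toPoly]
  | cons a l ih =>
    cases m with
    | nil => simp [addL, toPoly]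
    | cons b m =>
      simp only [addL, toPoly, ih, C_add]
      ring

theorem toPoly_map (a : ℤ) (l : List ℤ) : toPoly (l.map (fun x => a * x)) = C a * toPoly l := by
  induction l with
  | nil => simp [toPoly]
  | cons b l ih =>
    simp only [List.map_cons, toPoly, ih, C_mul]
    ring

theorem toPoly_mulL (l m : List ℤ) : toPoly (mulL l m) = toPoly l * toPoly m := by
  induction l with
  | nil => simp [mulL, toPoly]
  | cons a l ih =>
    simp only [mulL, toPoly_addL, toPoly_map, toPoly, ih, C_0, zero_add]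
    ring

theorem toPoly_zeros (k : ℕ) (l : List ℤ) : toPoly (zeros k l) = X ^ k * toPoly l := by
  induction k with
  | zero => simp [zeros]
  | succ k ih =>
    simp only [zeros, toPoly, ih, C_0, zero_add]
    ring

theorem toPoly_expandL (r : ℕ) (l : List ℤ) :
    toPoly (expandL r l) = expand ℤ (r + 1) (toPoly l) := by
  induction l with
  | nil => simp [expandL, toPoly]
  | cons a l ih =>
    simp only [expandL, toPoly, toPoly_zeros, ih, map_add, map_mul, expand_X, expand_C]
    ring

theorem toPoly_eq_zero_of_allz (l : List ℤ) (h : allz l = true) : toPoly l = 0 := by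
  induction l with
  | nil => rfl
  | cons a l ih =>
    simp only [allz, Bool.and_eq_true, beq_iff_eq] at h
    rw [toPoly, h.1, ih h.2]
    simp

theorem toPoly_eq_of_eqz (l m : List ℤ) (h : eqz l m = true) : toPoly l = toPoly m := by
  induction l generalizing m with
  | nil =>
    rw [toPoly_eq_zero_of_allz m h]
    rfl
  | cons a l ih =>
    cases m with
    | nil =>
      exact toPoly_eq_zero_of_allz (a :: l) h
    | cons b m =>
      simp only [eqz, Bool.and_eq_true, beq_iff_eq] at h
      rw [toPoly, toPoly, h.1, ih _ h.2]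

theorem eval_toPoly (x : ℤ) (l : List ℤ) : (toPoly l).eval x = evalL x l := by
  induction l with
  | nil => simp [toPoly, evalL]
  | cons a l ih => simp [toPoly, evalL, ih]

theorem natDegree_toPoly (l : List ℤ) : (toPoly l).natDegree ≤ l.length - 1 := by
  rw [natDegree_le_iff_coeff_eq_zero]
  have key : ∀ (l : List ℤ) (N : ℕ), l.length ≤ N → (toPoly l).coeff N = 0 := by
    intro l
    induction l with
    | nil => intro N _; simp [toPoly]
    | cons a l ih =>
      intro N hN
      simp only [List.length_cons] at hN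
      obtain ⟨M, rfl⟩ : ∃ M, N = M + 1 := ⟨N - 1, by omega⟩
      rw [toPoly, coeff_add, coeff_X_mul, ih M (by omega), coeff_C_succ]
      rfl
  intro N hN
  exact key l N (by omega)

theorem HB.toPoly_mul {g : ℤ[X]} {h : ℕ} (H : HB g h) (l : List ℤ) :
    HB (toPoly l * g) (l1 l * h) := by
  induction l with
  | nil => intro k; simp [toPoly, l1]
  | cons a l ih =>
    intro k
    rw [toPoly, add_mul, mul_assoc, coeff_add, coeff_C_mul]
    refine (Int.natAbs_add_le _ _).trans ?_
    rw [l1, add_mul, Int.natAbs_mul]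
    apply Nat.add_le_add (Nat.mul_le_mul_left _ (H k))
    rcases k with _ | k
    · simp
    · rw [coeff_X_mul]
      exact ih k

/-! ### Kronecker packing with 40-bit digits -/

/-- the `k`-th digit in base `2 ^ 40` -/
def dig (A k : ℕ) : ℕ := (A >>> (40 * k)) % 2 ^ 40

/-- distance to `2 ^ 39` -/
def ad (x : ℕ) : ℕ := (x - 2 ^ 39) + (2 ^ 39 - x)

/-- the repunit in base `2 ^ 40` -/
def rep (n : ℕ) : ℕ := (2 ^ (40 * n) - 1) / (2 ^ 40 - 1)

/-- sum of absolute values of the (shifted) digits in positions `r * i + s`, `i < n` -/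
def rowsum (A r s : ℕ) : ℕ → ℕ
  | 0 => 0
  | n + 1 => ad (dig A (r * n + s)) + rowsum A r s n

/-- check that all (shifted) digits are at most `M` in absolute value -/
def chkH (A M : ℕ) : ℕ → Bool
  | 0 => true
  | n + 1 => Nat.ble (ad (dig A n)) M && chkH A M n

/-- check that the first `r'` row sums are at most `M` -/
def chkRows (A r n M : ℕ) : ℕ → Bool
  | 0 => true
  | s + 1 => Nat.ble (rowsum A r s n) M && chkRows A r n M s

theorem digit_sum (B : ℕ) (hB : 0 < B) (b : ℕ → ℕ) (hb : ∀ k, b k < B) (n j : ℕ) (hj : j < n) :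
    (∑ k ∈ range n, b k * B ^ k) / B ^ j % B = b j := by
  induction j generalizing n b with
  | zero =>
    obtain ⟨m, rfl⟩ : ∃ m, n = m + 1 := ⟨n - 1, by omega⟩
    rw [Finset.sum_range_succ', pow_zero, Nat.div_one, mul_one, Nat.add_mod]
    have : (∑ k ∈ range m, b (k + 1) * B ^ (k + 1)) % B = 0 := by
      apply Nat.mod_eq_zero_of_dvd
      apply Finset.dvd_sum
      intro k _
      exact Dvd.dvd.mul_left (dvd_pow_self B (Nat.succ_ne_zero k)) _
    rw [this, zero_add, Nat.mod_mod, Nat.mod_eq_of_lt (hb 0)]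
  | succ j ih =>
    obtain ⟨m, rfl⟩ : ∃ m, n = m + 1 := ⟨n - 1, by omega⟩
    rw [pow_succ', ← Nat.div_div_eq_div_mul, Finset.sum_range_succ', pow_zero, mul_one]
    have : (∑ k ∈ range m, b (k + 1) * B ^ (k + 1)) = B * ∑ k ∈ range m, b (k + 1) * B ^ k := by
      rw [Finset.mul_sum]
      exact Finset.sum_congr rfl fun k _ => by ring
    rw [this, add_comm, Nat.add_mul_div_left _ _ hB, Nat.div_eq_of_lt (hb 0), zero_add]
    exact ih (fun k => b (k + 1)) (fun k => hb (k + 1)) m (by omega)

theorem rep_eq (n : ℕ) : rep n = ∑ k ∈ range n, (2 ^ 40) ^ k := by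
  unfold rep
  rw [Nat.geomSum_eq (by norm_num : 2 ≤ 2 ^ 40), ← pow_mul]

/-- The packed integer of a polynomial with small coefficients has the expected digits. -/
theorem ad_dig {f : ℤ[X]} {n : ℕ} (hn : f.natDegree < n) {h : ℕ} (H : HB f h) (hh : h < 2 ^ 39)
    {A : ℕ} (hA : (A : ℤ) = f.eval (2 ^ 40) + 2 ^ 39 * rep n) (k : ℕ) (hk : k < n) :
    ad (dig A k) = (f.coeff k).natAbs := by
  obtain ⟨b, hb⟩ : ∃ b : ℕ → ℕ, ∀ k, (b k : ℤ) = f.coeff k + 2 ^ 39 := by
    refine ⟨fun k => (f.coeff k + 2 ^ 39).toNat, fun k => ?_⟩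
    have := H k
    apply Int.toNat_of_nonneg
    omega
  have hlt : ∀ k, b k < 2 ^ 40 := by
    intro k
    have := H k
    have := hb k
    omega
  have hA' : A = ∑ k ∈ range n, b k * (2 ^ 40) ^ k := by
    have : (A : ℤ) = ((∑ k ∈ range n, b k * (2 ^ 40) ^ k : ℕ) : ℤ) := by
      rw [hA, eval_eq_sum_range' hn, rep_eq]
      push_cast
      rw [Finset.mul_sum, ← Finset.sum_add_distrib]
      refine Finset.sum_congr rfl fun k _ => ?_
      rw [hb k]
      ring
    exact_mod_cast this
  have hd : dig A k = b k := by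
    unfold dig
    rw [Nat.shiftRight_eq_div_pow, pow_mul, hA']
    exact digit_sum (2 ^ 40) (by norm_num) _ hlt n k hk
  rw [hd]
  unfold ad
  have := H k
  have := hb k
  omega

theorem chkH_iff (A M n : ℕ) : chkH A M n = true ↔ ∀ k < n, ad (dig A k) ≤ M := by
  induction n with
  | zero => simp [chkH]
  | succ n ih =>
    rw [chkH, Bool.and_eq_true, Nat.ble_eq, ih]
    constructor
    · rintro ⟨h1, h2⟩ k hk
      rcases Nat.lt_succ_iff_lt_or_eq.mp hk with h | rfl
      · exact h2 k h
      · exact h1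
    · intro h
      exact ⟨h n (Nat.lt_succ_self n), fun k hk => h k (Nat.lt_succ_of_lt hk)⟩

theorem rowsum_eq (A r s n : ℕ) : rowsum A r s n = ∑ i ∈ range n, ad (dig A (r * i + s)) := by
  induction n with
  | zero => simp [rowsum]
  | succ n ih => rw [rowsum, ih, Finset.sum_range_succ, add_comm]

theorem chkRows_iff (A r n M t : ℕ) :
    chkRows A r n M t = true ↔ ∀ s < t, rowsum A r s n ≤ M := by
  induction t with
  | zero => simp [chkRows]
  | succ t ih =>
    rw [chkRows, Bool.and_eq_true, Nat.ble_eq, ih]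
    constructor
    · rintro ⟨h1, h2⟩ k hk
      rcases Nat.lt_succ_iff_lt_or_eq.mp hk with h | rfl
      · exact h2 k h
      · exact h1
    · intro h
      exact ⟨h t (Nat.lt_succ_self t), fun k hk => h k (Nat.lt_succ_of_lt hk)⟩

theorem HB_of_chk {f : ℤ[X]} {n : ℕ} (hn : f.natDegree < n) {h : ℕ} (H : HB f h)
    (hh : h < 2 ^ 39) {A : ℕ} (hA : (A : ℤ) = f.eval (2 ^ 40) + 2 ^ 39 * rep n) {M : ℕ}
    (hc : chkH A M n = true) : HB f M := by
  intro k
  by_cases hk : k < n
  · rw [← ad_dig hn H hh hA k hk]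
    exact (chkH_iff A M n).mp hc k hk
  · rw [coeff_eq_zero_of_natDegree_lt (by omega)]
    simp

/-- bound for `E(X) G(X^r)` from the row sums of `E`. -/
theorem HB_mul_expand {f : ℤ[X]} {r n : ℕ} (hr : 0 < r) (hn : f.natDegree < r * n) {ℓ : ℕ}
    (hf : ∀ s < r, ∑ i ∈ range n, (f.coeff (r * i + s)).natAbs ≤ ℓ) {G : ℤ[X]} {h : ℕ}
    (HG : HB G h) : HB (f * expand ℤ r G) (ℓ * h) := by
  intro N
  have hsplit : f = ∑ i ∈ range n, X ^ (r * i) * E r (fun j => f.coeff (r * i + j)) := by
    have h1 : ∀ m : ℕ, ∑ k ∈ range (r * m), C (f.coeff k) * X ^ k =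
        ∑ i ∈ range m, X ^ (r * i) * E r (fun j => f.coeff (r * i + j)) := by
      intro m
      induction m with
      | zero => simp
      | succ m ih =>
        rw [Nat.mul_succ, Finset.sum_range_add, ih, Finset.sum_range_succ]
        congr 1
        unfold E
        rw [Finset.mul_sum]
        refine Finset.sum_congr rfl fun j _ => ?_
        rw [pow_add]; ring
    rw [← h1]
    exact f.as_sum_range_C_mul_X_pow' hn
  have hcoef : (f * expand ℤ r G).coeff N =
      ∑ i ∈ range n, f.coeff (r * i + N % r) * (X ^ i * G).coeff (N / r) := by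
    conv_lhs => rw [hsplit]
    rw [Finset.sum_mul, finsetSum_coeff]
    refine Finset.sum_congr rfl fun i _ => ?_
    have : X ^ (r * i) * E r (fun j => f.coeff (r * i + j)) * expand ℤ r G =
        E r (fun j => f.coeff (r * i + j)) * expand ℤ r (X ^ i * G) := by
      rw [map_mul, map_pow, expand_X, ← pow_mul]; ring
    rw [this, coeff_E_mul_expand hr]
  rw [hcoef]
  calc (∑ i ∈ range n, f.coeff (r * i + N % r) * (X ^ i * G).coeff (N / r)).natAbs
      ≤ ∑ i ∈ range n, (f.coeff (r * i + N % r) * (X ^ i * G).coeff (N / r)).natAbs :=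
        Int.natAbs_sum_le _ _
    _ ≤ ∑ i ∈ range n, (f.coeff (r * i + N % r)).natAbs * h := by
        apply Finset.sum_le_sum
        intro i _
        rw [Int.natAbs_mul]
        apply Nat.mul_le_mul_left
        rw [coeff_X_pow_mul']
        split_ifs
        · exact HG _
        · simp
    _ = (∑ i ∈ range n, (f.coeff (r * i + N % r)).natAbs) * h := by rw [Finset.sum_mul]
    _ ≤ ℓ * h := Nat.mul_le_mul_right h (hf (N % r) (Nat.mod_lt _ hr))

theorem HB_mul_expand_of_chk {f : ℤ[X]} {r n : ℕ} (hr : 0 < r) (hn : f.natDegree < r * n)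
    {h0 : ℕ} (H : HB f h0) (hh : h0 < 2 ^ 39)
    {A : ℕ} (hA : (A : ℤ) = f.eval (2 ^ 40) + 2 ^ 39 * rep (r * n)) {ℓ : ℕ}
    (hc : chkRows A r n ℓ r = true) {G : ℤ[X]} {h : ℕ} (HG : HB G h) :
    HB (f * expand ℤ r G) (ℓ * h) := by
  apply HB_mul_expand hr hn _ HG
  intro s hs
  have h1 := (chkRows_iff A r n ℓ r).mp hc s hs
  rw [rowsum_eq] at h1
  refine le_trans (le_of_eq ?_) h1
  refine Finset.sum_congr rfl fun i hi => ?_
  rw [ad_dig hn H hh hA]
  have hi' := Finset.mem_range.mp hi
  calc r * i + s < r * i + r := by omega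
    _ = r * (i + 1) := by ring
    _ ≤ r * n := Nat.mul_le_mul_left r hi'

end Pool.Agent.R466
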